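import Mathlib

set_option autoImplicit false

namespace Pool.Agent.Results.MP_21a573_al.No

open Matrix ProjGenLinGroup

variable {F : Type} [Field F]

/-- The upper unitriangular matrix with corner entry `x`. -/
def u (x : F) : GL (Fin 2) F := GeneralLinearGroup.mkOfDetNeZero !![1, x; 0, 1] (by simp)

/-- The point `x` of the unipotent radical `k U k⁻¹` of a Borel subgroup of `PGL₂(F)`. -/
def U (k : ProjGenLinGroup (Fin 2) F) (x : F) : ProjGenLinGroup (Fin 2) F := k * mk (u x) * k⁻¹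

/-- Cuspidal functions on `PGL₂(F)`. -/
def Cuspidal [Fintype F] (h : ProjGenLinGroup (Fin 2) F → ℂ) : Prop :=
  ∀ g k, ∑ x, h (g * U k x) = 0

/-- The points of the closure of the regular unipotent class: all unipotent elements. -/
def Obar (F : Type) [Field F] : Set (ProjGenLinGroup (Fin 2) F) :=
  {y | ∃ g : GL (Fin 2) F, ((g : Matrix (Fin 2) (Fin 2) F) - 1) ^ 2 = 0 ∧ mk g = y}

theorem u_add (x y : F) : u x * u y = u (x + y) := by
  ext i j; fin_cases i <;> fin_cases j <;> simp [u, Matrix.mul_apply, add_comm]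

theorem conj_mem {y} (h : y ∈ Obar F) (k) : k * y * k⁻¹ ∈ Obar F := by
  obtain ⟨g, h, rfl⟩ := h
  obtain ⟨k, rfl⟩ := mk_surjective k
  refine ⟨k * g * k⁻¹, ?_, by simp⟩
  have : ((k * g * k⁻¹ : GL (Fin 2) F) : Matrix (Fin 2) (Fin 2) F) - 1 = k * (g - 1) * (k⁻¹ : GL (Fin 2) F) := by
    simp [mul_sub, sub_mul]
  rw [this, pow_two, mul_assoc, mul_assoc, ← mul_assoc (↑k⁻¹ : Matrix (Fin 2) (Fin 2) F),
    ← mul_assoc (↑k⁻¹ : Matrix (Fin 2) (Fin 2) F), Units.inv_mul, one_mul, ← mul_assoc (_ - 1), ← pow_two, h]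
  simp

theorem disc {g : GL (Fin 2) F} (h : mk g ∈ Obar F) :
    (g 0 0 + g 1 1) ^ 2 = 4 * (g 0 0 * g 1 1 - g 0 1 * g 1 0) := by
  obtain ⟨m, h, e⟩ := h
  obtain ⟨c, rfl⟩ := mk_eq_mk_iff.1 e
  have h1 := congrFun (congrFun h 0) 0
  have h2 := congrFun (congrFun h 0) 1
  have h3 := congrFun (congrFun h 1) 0
  have h4 := congrFun (congrFun h 1) 1
  simp only [pow_two, Matrix.mul_apply, Fin.sum_univ_two, Matrix.sub_apply, Matrix.one_apply,
    Matrix.zero_apply] at h1 h2 h3 h4
  simp at h1 h2 h3 h4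
  have : m 0 0 + m 1 1 - 2 = 0 := by
    by_contra n
    have b : m 0 1 = 0 := (mul_eq_zero.1 (show m 0 1 * (m 0 0 + m 1 1 - 2) = 0 by
      linear_combination h2)).resolve_right n
    rw [b] at h1 h4
    simp at h1 h4
    exact n (by linear_combination h1 + h4)
  simp [Matrix.mul_apply, Fin.sum_univ_two, Matrix.diagonal]
  linear_combination (c : F) ^ 2 * (2 * h1 + 2 * h4 - (m 0 0 + m 1 1 - 2) * this)

variable [Fintype F] [DecidableEq F]

noncomputable def s : GL (Fin 2) F →* ℂ where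
  toFun g := (quadraticChar F (g : Matrix (Fin 2) (Fin 2) F).det : ℤ)
  map_one' := by simp
  map_mul' a b := by rw [Units.val_mul, det_mul, map_mul, Int.cast_mul]

theorem s_sq (g : GL (Fin 2) F) : s g * s g = 1 := by
  have := quadraticChar_sq_one (F := F) g.det_ne_zero
  simp only [s, MonoidHom.coe_mk, OneHom.coe_mk]
  rw [← Int.cast_mul, ← pow_two, this, Int.cast_one]

def Eqv (φ : ProjGenLinGroup (Fin 2) F → ℂ) : Prop := ∀ n y, φ (mk n * y * (mk n)⁻¹) = s n * φ y

open Classical in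
noncomputable def f0 (y : ProjGenLinGroup (Fin 2) F) : ℂ :=
  ∑ m : GL (Fin 2) F, if y = mk m * mk (u 1) * (mk m)⁻¹ then s m else 0

theorem f0_eqv : Eqv (f0 (F := F)) := fun n y => by
  classical
  unfold f0
  rw [Finset.mul_sum, ← Equiv.sum_comp (Equiv.mulLeft n)]
  refine Finset.sum_congr rfl fun m _ => ?_
  simp only [Equiv.coe_mulLeft, map_mul, mul_ite, mul_zero, _root_.mul_inv_rev, ← mul_assoc,
    mul_left_inj]
  simp only [mul_assoc, mul_right_inj]

theorem f0_ne (h2 : (2 : F) ≠ 0) : f0 (mk (u (1 : F))) ≠ 0 := by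
  classical
  unfold f0
  rw [Finset.sum_congr rfl (g := fun m => if mk (u 1) = mk m * mk (u 1) * (mk m)⁻¹ then 1 else 0)]
  · rw [Finset.sum_boole, Nat.cast_ne_zero]
    exact Finset.card_ne_zero_of_mem (a := 1) (by simp)
  intro m _
  split_ifs with h
  · rw [eq_mul_inv_iff_mul_eq, ← map_mul, ← map_mul] at h
    obtain ⟨c, h⟩ := mk_eq_mk_iff.1 h
    have d := congrArg (fun g : GL (Fin 2) F => (g : Matrix (Fin 2) (Fin 2) F)) h
    have h1 := congrFun (congrFun d 0) 0
    have h2 := congrFun (congrFun d 0) 1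
    have h3 := congrFun (congrFun d 1) 0
    have h4 := congrFun (congrFun d 1) 1
    have h5 := m.det_ne_zero
    simp [u, Matrix.mul_apply, Fin.sum_univ_two, Matrix.diagonal, Matrix.vecMul, dotProduct] at h1 h2 h3 h4
    rw [det_fin_two] at h5
    have e : (c : F) = 1 := by
      by_contra n
      have n := sub_ne_zero.2 n
      have a : m 1 0 = 0 := (mul_eq_zero.1 (show m 1 0 * (c - 1 : F) = 0 by
        linear_combination h3)).resolve_right n
      have b : m 0 0 = 0 := (mul_eq_zero.1 (show m 0 0 * (c - 1 : F) = 0 by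
        linear_combination h1 - c * a)).resolve_right n
      simp [a, b] at h5
    rw [e] at h1 h2
    have a : m 1 0 = 0 := by linear_combination h1
    have b : m 1 1 = m 0 0 := by linear_combination h2
    simp only [s, MonoidHom.coe_mk, OneHom.coe_mk]
    rw [det_fin_two, a, b, mul_zero, sub_zero, ← pow_two, quadraticChar_sq_one', Int.cast_one]
    rintro e
    simp [a, e] at h5
  · rfl

theorem result (F : Type) [Field F] [Fintype F] (hq : Fintype.card F % 4 = 1) :
    ∃ f : Obar F → ℂ,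
      (∀ g k (hg : ∀ x, g * U k x ∈ Obar F), ∑ x, f ⟨g * U k x, hg x⟩ = 0) ∧
      ¬ ∃ h : ProjGenLinGroup (Fin 2) F → ℂ, Cuspidal h ∧ ∀ y : Obar F, h y.1 = f y := by
  classical
  have hc : ringChar F ≠ 2 := fun e => by have := FiniteField.even_card_of_char_two e; omega
  have h2 : (2 : F) ≠ 0 := Ring.two_ne_zero hc
  obtain ⟨ν, hν⟩ := FiniteField.exists_nonsquare hc
  have ν0 : ν ≠ 0 := by rintro rfl; simp at hν
  have sν : ∀ g : GL (Fin 2) F, (g : Matrix (Fin 2) (Fin 2) F).det = ν → s g = -1 := fun g e => by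
    simp only [s, MonoidHom.coe_mk, OneHom.coe_mk]
    rw [e, quadraticChar_neg_one_iff_not_isSquare.2 hν]
    simp
  refine ⟨fun y => f0 y.1, fun g k hg => ?_, ?_⟩
  · obtain ⟨k, rfl⟩ := mk_surjective k
    obtain ⟨m, hm⟩ := mk_surjective ((mk k)⁻¹ * g * mk k)
    have e : ∀ x, g * U (mk k) x = mk k * mk (m * u x) * (mk k)⁻¹ := fun x => by
      rw [map_mul, hm, U]; group
    have d : ∀ x, mk (m * u x) ∈ Obar F := fun x => by
      have := conj_mem (hg x) (mk k)⁻¹
      rwa [e, show ∀ a b : ProjGenLinGroup (Fin 2) F, a⁻¹ * (a * b * a⁻¹) * a⁻¹⁻¹ = b from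
        fun a b => by group] at this
    have d0 := disc (d 0)
    have d1 := disc (d 1)
    have d2 := disc (d (-1))
    have d3 := m.det_ne_zero
    rw [det_fin_two] at d3
    simp [u, Matrix.mul_apply, Fin.sum_univ_two] at d0 d1 d2
    have a : m 1 0 = 0 := pow_eq_zero_iff (n := 2) (by simp) |>.1 ((mul_eq_zero.1
      (show 2 * m 1 0 ^ 2 = 0 by linear_combination d1 + d2 - 2 * d0)).resolve_left h2)
    have b : m 1 1 = m 0 0 := sub_eq_zero.1 (pow_eq_zero_iff (n := 2) (by simp) |>.1 (by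
      rw [a] at d0; linear_combination d0))
    have c : m 0 0 ≠ 0 := by rintro e; simp [a, e] at d3
    have : mk (u (m 0 1 / m 0 0)) = mk m := mk_eq_mk_iff.2 ⟨.mk0 _ c, by
      ext i j; fin_cases i <;> fin_cases j <;>
        simp [u, Matrix.mul_apply, Fin.sum_univ_two, Matrix.diagonal, a, b, c]⟩
    simp only [e, f0_eqv k, map_mul, ← this]
    simp only [← map_mul, u_add]
    have a0 := Equiv.sum_comp (Equiv.addLeft (m 0 1 / m 0 0)) fun x => f0 (mk (u x))
    simp only [Equiv.coe_addLeft] at a0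
    rw [← Finset.mul_sum, a0]
    let n : GL (Fin 2) F := GeneralLinearGroup.mkOfDetNeZero !![ν, 0; 0, 1] (by simpa)
    have a1 : ∀ x, mk (u (ν * x)) = mk n * mk (u x) * (mk n)⁻¹ := fun x => by
      rw [eq_mul_inv_iff_mul_eq, ← map_mul, ← map_mul]
      congr 1
      ext i j; fin_cases i <;> fin_cases j <;> simp [u, n, Matrix.mul_apply]
    have a2 := Equiv.sum_comp (Equiv.mulLeft₀ ν ν0) fun x => f0 (mk (u x))
    simp only [Equiv.mulLeft₀_apply, a1, f0_eqv n, sν n (by simp [n]), ← Finset.mul_sum] at a2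
    rw [show ∑ x, f0 (mk (u x : GL (Fin 2) F)) = 0 by linear_combination (-1 / 2 : ℂ) * a2, mul_zero]
  rintro ⟨h, h1, h3⟩
  let H : ProjGenLinGroup (Fin 2) F → ℂ := fun y => ∑ m : GL (Fin 2) F, s m * h (mk m * y * (mk m)⁻¹)
  have He : Eqv H := fun n y => by
    simp only [H]
    rw [Finset.mul_sum, ← Equiv.sum_comp (Equiv.mulRight n) fun m => s n * (s m * h (mk m * y * (mk m)⁻¹))]
    refine Finset.sum_congr rfl fun m _ => ?_
    simp only [Equiv.coe_mulRight, map_mul, _root_.mul_inv_rev, mul_assoc]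
    linear_combination (-s m * h (mk m * (mk n * (y * ((mk n)⁻¹ * (mk m)⁻¹))))) * s_sq n
  have Ho : ∀ y ∈ Obar F, H y = Fintype.card (GL (Fin 2) F) * f0 y := fun y hy => by
    simp only [H]
    rw [Finset.sum_congr rfl (g := fun _ => f0 y)]
    · simp
    intro m _
    rw [show h _ = f0 _ from h3 ⟨_, conj_mem hy _⟩, f0_eqv m, ← mul_assoc, s_sq, one_mul]
  let w : GL (Fin 2) F := GeneralLinearGroup.mkOfDetNeZero !![0, -1; 1, 0] (by simp)
  have Hc : ∑ x, H (mk (w * u x)) = 0 := by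
    simp only [H]
    rw [Finset.sum_comm]
    refine Finset.sum_eq_zero fun m _ => ?_
    rw [← Finset.mul_sum, ← mul_zero (s m), ← h1 (mk m * mk w * (mk m)⁻¹) (mk m)]
    congr 2
    ext x
    congr 1
    rw [U, map_mul]
    group
  have Hz : ∀ x, x ≠ 2 → x ≠ -2 → H (mk (w * u x)) = 0 := fun x a b => by
    have D : 4 - x ^ 2 ≠ 0 := fun e => (mul_ne_zero (sub_ne_zero.2 a) (sub_ne_zero.2 b))
      (by linear_combination -e)
    obtain ⟨p, r, e⟩ := FiniteField.exists_root_sum_quadratic (R := F)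
      (f := Polynomial.X ^ 2 - Polynomial.C ν) (g := Polynomial.C (4 - x ^ 2) * Polynomial.X ^ 2)
      (Polynomial.degree_X_pow_sub_C (by simp) _) (Polynomial.degree_C_mul_X_pow _ D) (by omega)
    simp at e
    have d : (!![p - r * x, -2 * r; 2 * r, p + r * x] : Matrix (Fin 2) (Fin 2) F).det = ν := by
      simp; linear_combination e
    let n : GL (Fin 2) F := GeneralLinearGroup.mkOfDetNeZero _ (d ▸ ν0)
    have := He n (mk (w * u x))
    rw [sν n d, show mk n * mk (w * u x) * (mk n)⁻¹ = mk (w * u x) by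
      rw [mul_inv_eq_iff_eq_mul, ← map_mul, ← map_mul]
      congr 1
      ext i j; fin_cases i <;> fin_cases j <;> simp [u, n, w, Matrix.mul_apply] <;> ring] at this
    linear_combination (1 / 2 : ℂ) * this
  have uo : mk (u (1 : F)) ∈ Obar F := ⟨_, by
    ext i j; fin_cases i <;> fin_cases j <;> simp [u, pow_two, Matrix.mul_apply], rfl⟩
  let k1 : GL (Fin 2) F := GeneralLinearGroup.mkOfDetNeZero !![-1, 0; 1, 1] (by simp)
  let k2 : GL (Fin 2) F := GeneralLinearGroup.mkOfDetNeZero !![1, 0; 1, 1] (by simp)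
  have e1 : mk (w * u 2) = mk k1 * mk (u 1) * (mk k1)⁻¹ := by
    rw [eq_mul_inv_iff_mul_eq, ← map_mul, ← map_mul]
    congr 1
    ext i j; fin_cases i <;> fin_cases j <;> simp [u, k1, w, Matrix.mul_apply] <;> ring
  have e2 : mk (w * u (-2)) = mk k2 * mk (u 1) * (mk k2)⁻¹ := by
    rw [eq_mul_inv_iff_mul_eq, ← map_mul, ← map_mul]
    refine mk_eq_mk_iff.2 ⟨-1, ?_⟩
    ext i j; fin_cases i <;> fin_cases j <;> simp [u, k2, w, Matrix.mul_apply, Matrix.diagonal] <;> ring
  have s1 : s k1 = 1 := by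
    simp only [s, MonoidHom.coe_mk, OneHom.coe_mk]
    rw [show (k1 : Matrix (Fin 2) (Fin 2) F).det = -1 by simp [k1],
      (quadraticChar_one_iff_isSquare (by simp)).2 (FiniteField.isSquare_neg_one_iff.2 (by omega))]
    simp
  have s2 : s k2 = 1 := by simp [s, k2]
  rw [Finset.sum_eq_add 2 (-2) (fun e => h2 ((mul_eq_zero.1 (show (2 : F) * 2 = 0 by
    linear_combination e)).elim id id)) (fun x _ a => Hz x a.1 a.2) (by simp) (by simp), e1, e2, He, He,
    s1, s2, Ho _ uo] at Hc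
  have : (Fintype.card (GL (Fin 2) F) : ℂ) ≠ 0 := by simp
  exact mul_ne_zero this (f0_ne h2) (by linear_combination (1 / 2 : ℂ) * Hc)

end Pool.Agent.Results.MP_21a573_al.No
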